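import Mathlib

/-! Expanding hypergraphs and the Brown-Erdős-Sós problem. The vertices are natural numbers, a
hypergraph with vertex set `U` is a finite set `H` of subsets of `U`. -/

set_option autoImplicit false

namespace Pool.Agent.Q108.BE

open Finset

/-- any `e` distinct members of `H` have a union with more than `v` elements -/
def Free (v e : ℕ) (H : Finset (Finset ℕ)) : Prop :=
  ∀ E ⊆ H, E.card = e → v < (E.biUnion id).card

/-- the edges contained in `W` -/
def inside (H : Finset (Finset ℕ)) (W : Finset ℕ) : Finset (Finset ℕ) := H.filter fun A => A ⊆ W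

/-- the number of the edges which meet `S` and are not contained in `S` -/
def cut (H : Finset (Finset ℕ)) (S : Finset ℕ) : ℕ :=
  (H.filter fun A => ¬ A ⊆ S ∧ ¬ Disjoint A S).card

/-- `H` is an `η`-expanding hypergraph on the vertex set `U` -/
def Expanding (η : ℝ) (U : Finset ℕ) (H : Finset (Finset ℕ)) : Prop :=
  ∀ S ⊆ U, η * S.card * (U.card - S.card) ≤ cut H S

/-- every pair of vertices is contained in at most `B` edges -/
def PairDeg (B : ℕ) (H : Finset (Finset ℕ)) : Prop :=
  ∀ x y, x ≠ y → (H.filter fun A => x ∈ A ∧ y ∈ A).card ≤ B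

theorem Free.mono {v e : ℕ} {H H' : Finset (Finset ℕ)} (h : Free v e H) (hs : H' ⊆ H) :
    Free v e H' := fun E hE he => h E (hE.trans hs) he

theorem PairDeg.mono {B : ℕ} {H H' : Finset (Finset ℕ)} (h : PairDeg B H) (hs : H' ⊆ H) :
    PairDeg B H' := fun x y hxy => (card_le_card (filter_subset_filter _ hs)).trans (h x y hxy)

theorem inside_subset (H : Finset (Finset ℕ)) (W : Finset ℕ) : inside H W ⊆ H :=
  filter_subset _ _

theorem pairDeg_of_free {r v e : ℕ} (hv : (r - 2) * e + 2 ≤ v)
    {H : Finset (Finset ℕ)} (hH : ∀ A ∈ H, A.card = r) (h : Free v e H) : PairDeg e H := by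
  intro x y hxy
  by_contra hcon
  push Not at hcon
  obtain ⟨E, hE, hEc⟩ := exists_subset_card_eq hcon.le
  have h1 := h E (hE.trans (filter_subset _ _)) hEc
  have h2 : E.biUnion id ⊆ {x, y} ∪ E.biUnion fun A => A \ {x, y} := by
    intro z hz
    rw [mem_biUnion] at hz
    obtain ⟨A, hA, hzA⟩ := hz
    rw [mem_union]
    by_cases hz' : z ∈ ({x, y} : Finset ℕ)
    · exact Or.inl hz'
    · right
      rw [mem_biUnion]
      exact ⟨A, hA, mem_sdiff.2 ⟨hzA, hz'⟩⟩
  have h3 : (E.biUnion fun A => A \ {x, y}).card ≤ E.card * (r - 2) := by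
    refine card_biUnion_le_card_mul _ _ _ fun A hA => ?_
    have h4 := mem_filter.1 (hE hA)
    have h5 : ({x, y} : Finset ℕ) ⊆ A := by
      intro z hz
      rw [mem_insert, mem_singleton] at hz
      rcases hz with rfl | rfl
      · exact h4.2.1
      · exact h4.2.2
    rw [card_sdiff_of_subset h5, hH A h4.1, card_pair hxy]
  have h6 := (card_le_card h2).trans (card_union_le _ _)
  rw [card_pair hxy] at h6
  rw [hEc, mul_comm] at h3
  omega

theorem inside_card_le {B r : ℕ} (hr : 2 ≤ r) {H : Finset (Finset ℕ)}
    (hH : ∀ A ∈ H, A.card = r) (h : PairDeg B H) (W : Finset ℕ) :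
    (inside H W).card ≤ B * W.card ^ 2 := by
  have h1 : inside H W ⊆ W.offDiag.biUnion fun q => H.filter fun A => q.1 ∈ A ∧ q.2 ∈ A := by
    intro A hA
    have hA' := mem_filter.1 hA
    have h2 : 1 < A.card := by rw [hH A hA'.1]; omega
    obtain ⟨x, hx, y, hy, hxy⟩ := one_lt_card.1 h2
    rw [mem_biUnion]
    exact ⟨(x, y), mem_offDiag.2 ⟨hA'.2 hx, hA'.2 hy, hxy⟩, mem_filter.2 ⟨hA'.1, hx, hy⟩⟩
  refine (card_le_card h1).trans ?_
  refine (card_biUnion_le_card_mul _ _ B fun q hq => h q.1 q.2 (mem_offDiag.1 hq).2.2).trans ?_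
  rw [offDiag_card, mul_comm]
  refine Nat.mul_le_mul_left _ ?_
  rw [sq]
  exact Nat.sub_le _ _

/-- the edges of `U` are inside `S`, inside `U \ S` or in the cut -/
theorem split_le {H : Finset (Finset ℕ)} (U S : Finset ℕ) :
    (inside H U).card ≤ (inside H S).card + (inside H (U \ S)).card + cut (inside H U) S := by
  have h1 : inside H U ⊆ (inside H S ∪ inside H (U \ S)) ∪
      (inside H U).filter fun A => ¬ A ⊆ S ∧ ¬ Disjoint A S := by
    intro A hA
    have hA' := mem_filter.1 hA
    rw [mem_union, mem_union]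
    by_cases h2 : A ⊆ S
    · exact Or.inl (Or.inl (mem_filter.2 ⟨hA'.1, h2⟩))
    · by_cases h3 : Disjoint A S
      · refine Or.inl (Or.inr (mem_filter.2 ⟨hA'.1, ?_⟩))
        intro z hz
        exact mem_sdiff.2 ⟨hA'.2 hz, fun hzS => Finset.disjoint_left.1 h3 hz hzS⟩
      · exact Or.inr (mem_filter.2 ⟨hA, h2, h3⟩)
  exact (card_le_card h1).trans ((card_union_le _ _).trans (Nat.add_le_add_right
    (card_union_le _ _) _))

theorem cut_compl {H : Finset (Finset ℕ)} {U S : Finset ℕ} :
    cut (inside H U) (U \ S) = cut (inside H U) S := by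
  unfold cut
  congr 1
  ext A
  rw [mem_filter, mem_filter]
  refine and_congr_right fun hA => ?_
  have hAU := (mem_filter.1 hA).2
  constructor
  · rintro ⟨h1, h2⟩
    constructor
    · intro h3
      apply h2
      rw [Finset.disjoint_left]
      intro z hz hz'
      exact (mem_sdiff.1 hz').2 (h3 hz)
    · intro h3
      apply h1
      intro z hz
      exact mem_sdiff.2 ⟨hAU hz, fun h => Finset.disjoint_left.1 h3 hz h⟩
  · rintro ⟨h1, h2⟩
    constructor
    · intro h3
      apply h2
      rw [Finset.disjoint_left]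
      intro z hz hz'
      exact (mem_sdiff.1 (h3 hz)).2 hz'
    · intro h3
      apply h1
      intro z hz
      by_contra h4
      exact Finset.disjoint_left.1 h3 hz (mem_sdiff.2 ⟨hAU hz, h4⟩)

/-- Decomposition, inductive form -/
theorem decomp_aux {B r : ℕ} (hr : 2 ≤ r) (n : ℕ) (η δ : ℝ) (hη : 0 ≤ η) (hδ : 0 ≤ δ)
    {H : Finset (Finset ℕ)} (hH : ∀ A ∈ H, A.card = r) (h : PairDeg B H) :
    ∀ (N : ℕ) (U : Finset ℕ) (j : ℕ), U.card ≤ N → U.card ≤ n → (U.card : ℝ) ≤ δ * n * 2 ^ j →
      ∃ P : Finset (Finset ℕ), (∀ W ∈ P, W ⊆ U ∧ δ * n < W.card ∧ Expanding η W (inside H W)) ∧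
        (∀ W ∈ P, ∀ W' ∈ P, W ≠ W' → Disjoint W W') ∧
        (((inside H U).filter fun A => ∀ W ∈ P, ¬ A ⊆ W).card : ℝ) ≤
          η * n * U.card * j + B * δ * n * U.card := by
  intro N
  induction N with
  | zero =>
    intro U j hU _ _
    have hU' : U = ∅ := card_eq_zero.1 (by omega)
    subst hU'
    refine ⟨∅, by simp, by simp, ?_⟩
    have h1 := inside_card_le hr hH h ∅
    simp only [card_empty] at h1
    have h2 : (inside H ∅).card = 0 := by simpa using h1
    have h3 := card_filter_le (inside H ∅) (fun A => ∀ W ∈ (∅ : Finset (Finset ℕ)), ¬ A ⊆ W)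
    rw [h2] at h3
    have h4 : ((inside H ∅).filter fun A => ∀ W ∈ (∅ : Finset (Finset ℕ)), ¬ A ⊆ W).card = 0 := by
      omega
    rw [h4]
    simp
  | succ N ih =>
    intro U j hU hUn hj
    by_cases hsmall : (U.card : ℝ) ≤ δ * n
    · refine ⟨∅, by simp, by simp, ?_⟩
      have h1 := inside_card_le hr hH h U
      have h2 : (((inside H U).filter fun A => ∀ W ∈ (∅ : Finset (Finset ℕ)), ¬ A ⊆ W).card : ℝ) ≤
          B * (U.card : ℝ) ^ 2 := by
        have := (card_filter_le (inside H U)
          (fun A => ∀ W ∈ (∅ : Finset (Finset ℕ)), ¬ A ⊆ W)).trans h1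
        exact_mod_cast this
      refine h2.trans ?_
      have h3 : (B : ℝ) * (U.card : ℝ) ^ 2 ≤ B * δ * n * U.card := by
        rw [sq]
        have : (B : ℝ) * (U.card * U.card) ≤ B * ((δ * n) * U.card) := by gcongr
        linarith
      have h4 : 0 ≤ η * n * U.card * j := by positivity
      linarith
    · push Not at hsmall
      by_cases hexp : Expanding η U (inside H U)
      · refine ⟨{U}, ?_, ?_, ?_⟩
        · intro W hW
          rw [mem_singleton] at hW
          subst hW
          exact ⟨subset_rfl, hsmall, hexp⟩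
        · intro W hW W' hW' hne
          rw [mem_singleton] at hW hW'
          exact absurd (hW.trans hW'.symm) hne
        · have h1 : ((inside H U).filter fun A => ∀ W ∈ ({U} : Finset (Finset ℕ)), ¬ A ⊆ W) = ∅ := by
            rw [filter_eq_empty_iff]
            intro A hA hcon
            exact hcon U (mem_singleton_self U) (mem_filter.1 hA).2
          rw [h1]
          simp only [card_empty, Nat.cast_zero]
          positivity
      · -- there is a sparse cut with a small side
        have hcut : ∃ S ⊆ U, 2 * S.card ≤ U.card ∧ S.Nonempty ∧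
            (cut (inside H U) S : ℝ) ≤ η * n * S.card := by
          unfold Expanding at hexp
          push Not at hexp
          obtain ⟨S, hS, hlt⟩ := hexp
          have hSU := card_le_card hS
          have hSU' : (S.card : ℝ) ≤ U.card := by exact_mod_cast hSU
          have hUn' : (U.card : ℝ) ≤ n := by exact_mod_cast hUn
          by_cases h2 : 2 * S.card ≤ U.card
          · refine ⟨S, hS, h2, ?_, ?_⟩
            · rw [nonempty_iff_ne_empty]
              rintro rfl
              simp only [card_empty, Nat.cast_zero, mul_zero, zero_mul] at hlt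
              exact absurd hlt (not_lt.2 (Nat.cast_nonneg _))
            · refine hlt.le.trans ?_
              have : (U.card : ℝ) - S.card ≤ n := by
                have : (0 : ℝ) ≤ S.card := Nat.cast_nonneg _
                linarith
              calc η * S.card * (U.card - S.card) ≤ η * S.card * n := by gcongr
                _ = _ := by ring
          · have hT : (U \ S).card = U.card - S.card := card_sdiff_of_subset hS
            refine ⟨U \ S, sdiff_subset, by omega, ?_, ?_⟩
            · rw [nonempty_iff_ne_empty]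
              intro h3
              rw [h3, card_empty] at hT
              have h4 : S.card = U.card := by omega
              rw [h4, sub_self, mul_zero] at hlt
              exact absurd hlt (not_lt.2 (Nat.cast_nonneg _))
            · rw [cut_compl]
              refine hlt.le.trans ?_
              rw [hT, Nat.cast_sub hSU]
              have h5 : (0 : ℝ) ≤ (U.card : ℝ) - S.card := by linarith
              calc η * S.card * (U.card - S.card) ≤ η * n * (U.card - S.card) := by
                    gcongr
                    linarith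
                _ = _ := by ring
        obtain ⟨S, hS, h2S, hSne, hcutS⟩ := hcut
        have hSpos := hSne.card_pos
        have hT : (U \ S).card = U.card - S.card := card_sdiff_of_subset hS
        have hSU := card_le_card hS
        -- `j ≥ 1`
        obtain ⟨i, rfl⟩ : ∃ i, j = i + 1 := by
          rcases j with _ | i
          · rw [pow_zero, mul_one] at hj
            exact absurd hj (not_le.2 hsmall)
          · exact ⟨i, rfl⟩
        obtain ⟨P, hP1, hP2, hP3⟩ := ih S i (by omega) (by omega) (by
          have : (2 : ℝ) * S.card ≤ U.card := by exact_mod_cast h2S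
          rw [pow_succ] at hj
          linarith)
        obtain ⟨Q, hQ1, hQ2, hQ3⟩ := ih (U \ S) (i + 1) (by omega) (by omega) (by
          have : (((U \ S).card : ℕ) : ℝ) ≤ U.card := by
            exact_mod_cast card_le_card sdiff_subset
          linarith)
        refine ⟨P ∪ Q, ?_, ?_, ?_⟩
        · intro W hW
          rw [mem_union] at hW
          rcases hW with hW | hW
          · obtain ⟨a, b, c⟩ := hP1 W hW
            exact ⟨a.trans hS, b, c⟩
          · obtain ⟨a, b, c⟩ := hQ1 W hW
            exact ⟨a.trans sdiff_subset, b, c⟩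
        · intro W hW W' hW' hne
          rw [mem_union] at hW hW'
          have hdis : Disjoint S (U \ S) := disjoint_sdiff
          rcases hW with hW | hW <;> rcases hW' with hW' | hW'
          · exact hP2 W hW W' hW' hne
          · exact hdis.mono (hP1 W hW).1 (hQ1 W' hW').1
          · exact hdis.symm.mono (hQ1 W hW).1 (hP1 W' hW').1
          · exact hQ2 W hW W' hW' hne
        · have h1 : ((inside H U).filter fun A => ∀ W ∈ P ∪ Q, ¬ A ⊆ W) ⊆
              (((inside H S).filter fun A => ∀ W ∈ P, ¬ A ⊆ W) ∪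
                ((inside H (U \ S)).filter fun A => ∀ W ∈ Q, ¬ A ⊆ W)) ∪
              (inside H U).filter fun A => ¬ A ⊆ S ∧ ¬ Disjoint A S := by
            intro A hA
            obtain ⟨hA1, hA2⟩ := mem_filter.1 hA
            have hA' := mem_filter.1 hA1
            rw [mem_union, mem_union]
            by_cases h2 : A ⊆ S
            · refine Or.inl (Or.inl (mem_filter.2 ⟨mem_filter.2 ⟨hA'.1, h2⟩, ?_⟩))
              exact fun W hW => hA2 W (mem_union_left _ hW)
            · by_cases h3 : Disjoint A S
              · refine Or.inl (Or.inr (mem_filter.2 ⟨mem_filter.2 ⟨hA'.1, ?_⟩, ?_⟩))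
                · intro z hz
                  exact mem_sdiff.2 ⟨hA'.2 hz, fun hzS => Finset.disjoint_left.1 h3 hz hzS⟩
                · exact fun W hW => hA2 W (mem_union_right _ hW)
              · exact Or.inr (mem_filter.2 ⟨hA1, h2, h3⟩)
          have h2 := (card_le_card h1).trans ((card_union_le _ _).trans (Nat.add_le_add_right
            (card_union_le _ _) _))
          have h3 : ((((inside H U).filter fun A => ∀ W ∈ P ∪ Q, ¬ A ⊆ W).card : ℕ) : ℝ) ≤
              (((inside H S).filter fun A => ∀ W ∈ P, ¬ A ⊆ W).card : ℝ) +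
              (((inside H (U \ S)).filter fun A => ∀ W ∈ Q, ¬ A ⊆ W).card : ℝ) +
              (cut (inside H U) S : ℝ) := by
            exact_mod_cast h2
          refine h3.trans ?_
          have h4 : (((U \ S).card : ℕ) : ℝ) = U.card - S.card := by
            rw [hT, Nat.cast_sub hSU]
          rw [h4] at hQ3
          push_cast at hQ3 ⊢
          nlinarith

theorem decomp {B r : ℕ} (hr : 2 ≤ r) (ε : ℝ) (hε : 0 < ε) :
    ∃ η : ℝ, 0 < η ∧ ∀ (U : Finset ℕ) (H : Finset (Finset ℕ)), H ⊆ powersetCard r U →
      PairDeg B H →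
      ∃ P : Finset (Finset ℕ),
        (∀ W ∈ P, W ⊆ U ∧ η * U.card ≤ W.card ∧ Expanding η W (inside H W)) ∧
        (∀ W ∈ P, ∀ W' ∈ P, W ≠ W' → Disjoint W W') ∧
        ((H.filter fun A => ∀ W ∈ P, ¬ A ⊆ W).card : ℝ) ≤ ε * (U.card : ℝ) ^ 2 := by
  -- `δ = 2 ^ (-K)` with `B δ ≤ ε / 2`
  obtain ⟨K, hK⟩ : ∃ K : ℕ, (2 * B / ε : ℝ) < 2 ^ K := pow_unbounded_of_one_lt _ one_lt_two
  set δ : ℝ := (2 ^ K)⁻¹ with hδ
  have hδ0 : 0 < δ := by positivity
  have hBδ : B * δ ≤ ε / 2 := by
    rw [hδ]
    rw [div_lt_iff₀ hε] at hK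
    rw [mul_inv_le_iff₀ (by positivity)]
    linarith
  set η : ℝ := min δ (ε / (2 * (K + 1))) with hη
  have hη0 : 0 < η := lt_min hδ0 (by positivity)
  have hηK : η * K ≤ ε / 2 := by
    have h1 : η ≤ ε / (2 * (K + 1)) := min_le_right _ _
    have h2 : η * (K + 1) ≤ ε / 2 := by
      rw [le_div_iff₀ (by positivity)] at h1
      linarith
    nlinarith
  refine ⟨η, hη0, fun U H hHU hB => ?_⟩
  have hH : ∀ A ∈ H, A.card = r := fun A hA => (mem_powersetCard.1 (hHU hA)).2
  have hin : inside H U = H := by
    unfold inside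
    rw [filter_eq_self]
    exact fun A hA => (mem_powersetCard.1 (hHU hA)).1
  obtain ⟨P, h1, h2, h3⟩ := decomp_aux hr U.card η δ hη0.le hδ0.le hH hB U.card U K le_rfl le_rfl (by
    rw [hδ]
    rw [mul_right_comm, inv_mul_cancel₀ (by positivity), one_mul])
  rw [hin] at h3
  refine ⟨P, fun W hW => ⟨(h1 W hW).1, ?_, (h1 W hW).2.2⟩, h2, h3.trans ?_⟩
  · refine le_trans ?_ (h1 W hW).2.1.le
    gcongr
    exact min_le_left _ _
  · have h4 : η * U.card * U.card * K + B * δ * U.card * U.card =
        (η * K + B * δ) * (U.card : ℝ) ^ 2 := by ring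
    rw [h4]
    gcongr
    linarith

end Pool.Agent.Q108.BE
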