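import Pool.Agent.Q108.BE.Basic

/-! Near-extremal hypergraphs contain optimal expanders. -/

set_option autoImplicit false
set_option maxHeartbeats 4000000

namespace Pool.Agent.Q108.BE

open Finset

/-- the numbers `c ≥ 0` such that every free `r`-graph with sufficiently many vertices has at most
`c n²` edges -/
def upperSet (r v e : ℕ) : Set ℝ :=
  {c : ℝ | 0 ≤ c ∧ ∃ N : ℕ, ∀ U : Finset ℕ, N ≤ U.card → ∀ H ⊆ powersetCard r U, Free v e H →
    (H.card : ℝ) ≤ c * (U.card : ℝ) ^ 2}

/-- `limsup ex_r(n, F_r(v, e)) / n²` -/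
noncomputable def dens (r v e : ℕ) : ℝ := sInf (upperSet r v e)

theorem dens_nonneg (r v e : ℕ) : 0 ≤ dens r v e := Real.sInf_nonneg fun _ h => h.1

theorem bddBelow_upperSet (r v e : ℕ) : BddBelow (upperSet r v e) := ⟨0, fun _ h => h.1⟩

theorem inside_self {r : ℕ} {U : Finset ℕ} {H : Finset (Finset ℕ)} (hHU : H ⊆ powersetCard r U) :
    inside H U = H := by
  unfold inside
  rw [filter_eq_self]
  exact fun A hA => (mem_powersetCard.1 (hHU hA)).1

theorem card_le_of_free {r v e : ℕ} (hr : 2 ≤ r) (hv : (r - 2) * e + 2 ≤ v) {U : Finset ℕ}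
    {H : Finset (Finset ℕ)} (hHU : H ⊆ powersetCard r U) (h : Free v e H) (W : Finset ℕ) :
    ((inside H W).card : ℝ) ≤ e * (W.card : ℝ) ^ 2 := by
  have hH : ∀ A ∈ H, A.card = r := fun A hA => (mem_powersetCard.1 (hHU hA)).2
  have := inside_card_le hr hH (pairDeg_of_free hv hH h) W
  exact_mod_cast this

theorem upperSet_nonempty {r v e : ℕ} (hr : 2 ≤ r) (hv : (r - 2) * e + 2 ≤ v) :
    (upperSet r v e).Nonempty := by
  refine ⟨e, Nat.cast_nonneg _, 0, fun U _ H hHU h => ?_⟩
  have := card_le_of_free hr hv hHU h U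
  rwa [inside_self hHU] at this

theorem near_extremal {r v e : ℕ} (hr : 2 ≤ r) (hv : (r - 2) * e + 2 ≤ v)
    (hpos : 0 < dens r v e) (ε : ℝ) (hε : 0 < ε) (M : ℕ) :
    ∃ (U : Finset ℕ) (H : Finset (Finset ℕ)), M ≤ U.card ∧ H ⊆ powersetCard r U ∧ Free v e H ∧
      (dens r v e - ε) * (U.card : ℝ) ^ 2 ≤ H.card ∧ Expanding (2 * dens r v e - ε) U H := by
  set c := dens r v e with hc
  set δ : ℝ := min (ε / 8) (c / 4) with hδ
  have hδ0 : 0 < δ := lt_min (by positivity) (by positivity)
  have hδε : 8 * δ ≤ ε := by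
    have := min_le_left (ε / 8) (c / 4)
    linarith
  have hδc : 4 * δ ≤ c := by
    have := min_le_right (ε / 8) (c / 4)
    linarith
  obtain ⟨c1, ⟨hc10, N, hN⟩, hc1⟩ : ∃ c1 ∈ upperSet r v e, c1 < c + δ :=
    exists_lt_of_csInf_lt (upperSet_nonempty hr hv) (by rw [← dens]; linarith)
  have hN' : ∀ U : Finset ℕ, N ≤ U.card → ∀ H ⊆ powersetCard r U, Free v e H →
      (H.card : ℝ) ≤ (c + δ) * (U.card : ℝ) ^ 2 := by
    intro U hU H hH hf
    refine (hN U hU H hH hf).trans ?_
    gcongr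
  have hlow : ∀ M0 : ℕ, ∃ U : Finset ℕ, M0 ≤ U.card ∧ ∃ H ⊆ powersetCard r U, Free v e H ∧
      (c - δ) * (U.card : ℝ) ^ 2 < H.card := by
    intro M0
    by_contra hcon
    push Not at hcon
    have hmem : c - δ ∈ upperSet r v e := ⟨by linarith, M0, fun U hU H hH hf => hcon U hU H hH hf⟩
    have := csInf_le (bddBelow_upperSet r v e) hmem
    rw [← dens] at this
    linarith
  -- sizes
  obtain ⟨M1, hM1⟩ : ∃ M1 : ℕ, M ≤ M1 ∧ 2 * e * N / δ ≤ M1 := by
    obtain ⟨k, hk⟩ := exists_nat_ge (2 * e * N / δ : ℝ)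
    exact ⟨max M k, le_max_left _ _, hk.trans (by exact_mod_cast le_max_right _ _)⟩
  obtain ⟨M0, hM0, hM01⟩ : ∃ M0 : ℕ, (e * (M1 : ℝ) ^ 2 / δ : ℝ) ≤ M0 ∧ 1 ≤ M0 := by
    obtain ⟨k, hk⟩ := exists_nat_ge (e * (M1 : ℝ) ^ 2 / δ : ℝ)
    refine ⟨k + 1, hk.trans ?_, by omega⟩
    push_cast
    linarith
  obtain ⟨U0, hU0, H0, hH0, hf0, hcard0⟩ := hlow M0
  set a := c - 2 * δ with ha
  have ha0 : 0 ≤ a := by rw [ha]; linarith
  obtain ⟨U, hU, hmax⟩ := exists_max_image U0.powerset
    (fun W => ((inside H0 W).card : ℝ) - a * (W.card : ℝ) ^ 2) ⟨U0, mem_powerset_self U0⟩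
  rw [mem_powerset] at hU
  have hφ0 : δ * (U0.card : ℝ) ^ 2 < ((inside H0 U).card : ℝ) - a * (U.card : ℝ) ^ 2 := by
    have h1 := hmax U0 (mem_powerset_self U0)
    simp only [inside_self hH0] at h1
    have h2 : (H0.card : ℝ) - a * (U0.card : ℝ) ^ 2 > δ * (U0.card : ℝ) ^ 2 := by
      have : (c - δ) * (U0.card : ℝ) ^ 2 = a * (U0.card : ℝ) ^ 2 + δ * (U0.card : ℝ) ^ 2 := by
        rw [ha]; ring
      linarith
    linarith
  have hUcard : M1 ≤ U.card := by
    by_contra hcon
    push Not at hcon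
    have h1 := card_le_of_free hr hv hH0 hf0 U
    have h2 : (U.card : ℝ) ≤ M1 := by exact_mod_cast hcon.le
    have h3 : (e : ℝ) * (U.card : ℝ) ^ 2 ≤ e * (M1 : ℝ) ^ 2 := by gcongr
    have h4 : e * (M1 : ℝ) ^ 2 ≤ δ * M0 := by
      rw [div_le_iff₀ hδ0] at hM0
      linarith
    have h5 : (M0 : ℝ) ≤ (U0.card : ℝ) := by exact_mod_cast hU0
    have h6 : (1 : ℝ) ≤ (U0.card : ℝ) := by exact_mod_cast hM01.trans hU0
    have h7 : (M0 : ℝ) ≤ (U0.card : ℝ) ^ 2 := by nlinarith
    have h8 : δ * M0 ≤ δ * (U0.card : ℝ) ^ 2 := by gcongr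
    have h9 : 0 ≤ a * (U.card : ℝ) ^ 2 := by positivity
    linarith
  set H := inside H0 U with hHdef
  have hHU : H ⊆ powersetCard r U := by
    intro A hA
    have hA' := mem_filter.1 hA
    exact mem_powersetCard.2 ⟨hA'.2, (mem_powersetCard.1 (hH0 hA'.1)).2⟩
  have hf : Free v e H := hf0.mono (inside_subset _ _)
  have hins : ∀ W ⊆ U, inside H W = inside H0 W := by
    intro W hW
    ext A
    rw [inside, mem_filter, hHdef, inside, mem_filter, inside, mem_filter]
    constructor
    · rintro ⟨⟨h1, -⟩, h3⟩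
      exact ⟨h1, h3⟩
    · rintro ⟨h1, h2⟩
      exact ⟨⟨h1, h2.trans hW⟩, h2⟩
  have hU2 : (2 * e * N : ℝ) ≤ δ * U.card := by
    have h1 := hM1.2
    rw [div_le_iff₀ hδ0] at h1
    have h2 : (M1 : ℝ) ≤ U.card := by exact_mod_cast hUcard
    nlinarith
  -- the cut bound for small sides
  have key : ∀ S ⊆ U, 2 * S.card ≤ U.card →
      (2 * c - 8 * δ) * S.card * (U.card - S.card) ≤ cut H S := by
    intro S hS h2S
    have hSU := card_le_card hS
    have hT : (U \ S).card = U.card - S.card := card_sdiff_of_subset hS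
    have hTr : (((U \ S).card : ℕ) : ℝ) = (U.card : ℝ) - S.card := by
      rw [hT, Nat.cast_sub hSU]
    have h1 := hmax (U \ S) (mem_powerset.2 (sdiff_subset.trans hU))
    have h2 := split_le (H := H0) U S
    have h2' : ((inside H0 U).card : ℝ) ≤ (inside H0 S).card + (inside H0 (U \ S)).card +
        cut H S := by exact_mod_cast h2
    have h3 : ((inside H0 S).card : ℝ) ≤ (c + δ) * (S.card : ℝ) ^ 2 + e * N * S.card := by
      by_cases hSN : N ≤ S.card
      · have h4 := hN' S hSN (inside H S) (by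
          intro A hA
          have hA' := mem_filter.1 hA
          exact mem_powersetCard.2 ⟨hA'.2, (mem_powersetCard.1 (hHU hA'.1)).2⟩)
          (hf.mono (inside_subset _ _))
        rw [hins S hS] at h4
        have : (0 : ℝ) ≤ e * N * S.card := by positivity
        linarith
      · push Not at hSN
        have h4 := card_le_of_free hr hv hH0 hf0 S
        have h5 : (S.card : ℝ) ≤ N := by exact_mod_cast hSN.le
        have h6 : (e : ℝ) * (S.card : ℝ) ^ 2 ≤ e * N * S.card := by
          rw [sq]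
          have : (e : ℝ) * (S.card * S.card) ≤ e * (N * S.card) := by gcongr
          linarith
        have h7 : 0 ≤ (c + δ) * (S.card : ℝ) ^ 2 := by positivity
        linarith
    rw [hTr] at h1
    have hs : (2 : ℝ) * S.card ≤ U.card := by exact_mod_cast h2S
    have hs0 : (0 : ℝ) ≤ S.card := Nat.cast_nonneg _
    have heN : (0 : ℝ) ≤ e * N := by positivity
    have h8 : (a : ℝ) * ((U.card : ℝ) ^ 2 - (U.card - S.card) ^ 2) ≤
        (inside H0 S).card + cut H S := by linarith
    have h9 : (U.card : ℝ) ^ 2 - (U.card - S.card) ^ 2 = S.card * (2 * (U.card - S.card) + S.card) := by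
      ring
    rw [h9] at h8
    -- `e N |S| ≤ δ |S| (|U| - |S|)`
    have h10 : (e : ℝ) * N * S.card ≤ δ * S.card * (U.card - S.card) := by
      have : (e : ℝ) * N ≤ δ * (U.card - S.card) := by nlinarith
      calc (e : ℝ) * N * S.card ≤ δ * (U.card - S.card) * S.card := by gcongr
        _ = _ := by ring
    have h11 : δ * (S.card : ℝ) ^ 2 ≤ δ * S.card * (U.card - S.card) := by
      have : (S.card : ℝ) ≤ U.card - S.card := by linarith
      rw [sq]
      have : δ * S.card * S.card ≤ δ * S.card * (U.card - S.card) := by gcongr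
      linarith
    have h12 : (cut H S : ℝ) ≥ a * (S.card * (2 * (U.card - S.card) + S.card)) -
        ((c + δ) * (S.card : ℝ) ^ 2 + e * N * S.card) := by linarith
    have h13 : a * (S.card * (2 * (U.card - S.card) + S.card)) =
        2 * c * S.card * (U.card - S.card) + c * (S.card : ℝ) ^ 2 -
        4 * (δ * S.card * (U.card - S.card)) - 2 * (δ * (S.card : ℝ) ^ 2) := by
      rw [ha]; ring
    have h14 : (2 * c - 8 * δ) * S.card * (U.card - S.card) =
        2 * c * S.card * (U.card - S.card) - 8 * (δ * S.card * (U.card - S.card)) := by ring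
    rw [h14]
    have h15 : (c + δ) * (S.card : ℝ) ^ 2 = c * (S.card : ℝ) ^ 2 + δ * (S.card : ℝ) ^ 2 := by ring
    linarith
  refine ⟨U, H, hM1.1.trans hUcard, hHU, hf, ?_, ?_⟩
  · have h1 : (c - ε) * (U.card : ℝ) ^ 2 ≤ a * (U.card : ℝ) ^ 2 := by
      gcongr
      rw [ha]
      linarith
    have h2 : 0 ≤ δ * (U0.card : ℝ) ^ 2 := by positivity
    linarith
  · intro S hS
    have hSU := card_le_card hS
    have hSU' : (S.card : ℝ) ≤ U.card := by exact_mod_cast hSU
    have hcoef : 2 * c - ε ≤ 2 * c - 8 * δ := by linarith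
    by_cases h2S : 2 * S.card ≤ U.card
    · refine le_trans ?_ (key S hS h2S)
      have : (0 : ℝ) ≤ (U.card : ℝ) - S.card := by linarith
      gcongr
    · have hT : (U \ S).card = U.card - S.card := card_sdiff_of_subset hS
      have hTr : (((U \ S).card : ℕ) : ℝ) = (U.card : ℝ) - S.card := by
        rw [hT, Nat.cast_sub hSU]
      have h1 := key (U \ S) sdiff_subset (by omega)
      have h2 : cut H (U \ S) = cut H S := by
        have := cut_compl (H := H0) (U := U) (S := S)
        exact this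
      rw [h2, hTr] at h1
      refine le_trans ?_ h1
      have : (0 : ℝ) ≤ (U.card : ℝ) - S.card := by linarith
      have e1 : (U.card : ℝ) - (U.card - S.card) = S.card := by ring
      rw [e1]
      calc (2 * c - ε) * S.card * (U.card - S.card)
          ≤ (2 * c - 8 * δ) * S.card * (U.card - S.card) := by gcongr
        _ = _ := by ring

theorem sum_cut_le {r : ℕ} {U : Finset ℕ} {H : Finset (Finset ℕ)} (hHU : H ⊆ powersetCard r U) :
    ∑ x ∈ U, cut H {x} ≤ r * H.card := by
  have h1 : ∀ x, cut H {x} ≤ (H.filter fun A => x ∈ A).card := by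
    intro x
    refine card_le_card fun A hA => ?_
    rw [mem_filter] at hA ⊢
    refine ⟨hA.1, ?_⟩
    have := hA.2.2
    rw [disjoint_singleton_right, not_not] at this
    exact this
  refine (Finset.sum_le_sum fun x _ => h1 x).trans ?_
  simp only [card_filter]
  rw [sum_comm]
  have h2 : ∀ A ∈ H, ∑ x ∈ U, (if x ∈ A then 1 else 0) = r := by
    intro A hA
    have hA' := mem_powersetCard.1 (hHU hA)
    rw [← card_filter, ← hA'.2]
    congr 1
    ext x
    rw [mem_filter]
    exact ⟨fun h => h.2, fun h => ⟨hA'.1 h, h⟩⟩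
  rw [Finset.sum_congr rfl h2, sum_const, smul_eq_mul, mul_comm]

theorem equivalence {r v e : ℕ} (hr : 2 ≤ r) (hv : (r - 2) * e + 2 ≤ v) :
    (∀ ε : ℝ, 0 < ε → ∃ N : ℕ, ∀ U : Finset ℕ, N ≤ U.card → ∀ H ⊆ powersetCard r U, Free v e H →
      (H.card : ℝ) ≤ ε * (U.card : ℝ) ^ 2) ↔
    (∀ η : ℝ, 0 < η → ∃ M : ℕ, ∀ U : Finset ℕ, ∀ H ⊆ powersetCard r U, Free v e H →
      Expanding η U H → U.card ≤ M) := by
  constructor
  · intro h η hη
    have hr0 : (0 : ℝ) < r := by
      have : 0 < r := by omega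
      exact_mod_cast this
    obtain ⟨N, hN⟩ := h (η / (4 * r)) (by positivity)
    refine ⟨max N 2, fun U H hHU hf hexp => ?_⟩
    by_contra hcon
    push Not at hcon
    have h1 := le_max_left N 2
    have h2 := le_max_right N 2
    have h3 := hN U (by omega) H hHU hf
    have h4 : ∑ x ∈ U, (η * (U.card - 1) : ℝ) ≤ ∑ x ∈ U, (cut H {x} : ℝ) := by
      refine Finset.sum_le_sum fun x hx => ?_
      have := hexp {x} (singleton_subset_iff.2 hx)
      rw [card_singleton] at this
      push_cast at this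
      linarith
    have h5 : ∑ x ∈ U, (cut H {x} : ℝ) ≤ r * H.card := by
      exact_mod_cast sum_cut_le hHU
    rw [sum_const, nsmul_eq_mul] at h4
    have h6 : (2 : ℝ) < U.card := by
      have : 2 < U.card := by omega
      exact_mod_cast this
    have h7 : (r : ℝ) * H.card ≤ η / 4 * (U.card : ℝ) ^ 2 := by
      calc (r : ℝ) * H.card ≤ r * (η / (4 * r) * (U.card : ℝ) ^ 2) := by gcongr
        _ = _ := by field_simp
    have h8 : (U.card : ℝ) * (η * (U.card - 1)) ≤ η / 4 * (U.card : ℝ) ^ 2 := by linarith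
    have h9 : (U.card : ℝ) * (η * (U.card - 1)) - η / 4 * (U.card : ℝ) ^ 2 =
        η * U.card * (3 / 4 * U.card - 1) := by ring
    have h10 : 0 < η * U.card * (3 / 4 * U.card - 1) := by
      have : (0 : ℝ) < 3 / 4 * U.card - 1 := by linarith
      have : (0 : ℝ) < U.card := by linarith
      positivity
    linarith
  · intro h ε hε
    have hz : dens r v e = 0 := by
      by_contra hne
      have hpos : 0 < dens r v e := lt_of_le_of_ne (dens_nonneg r v e) (Ne.symm hne)
      obtain ⟨M, hM⟩ := h _ hpos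
      obtain ⟨U, H, h1, h2, h3, -, h5⟩ := near_extremal hr hv hpos _ hpos (M + 1)
      have h6 : 2 * dens r v e - dens r v e = dens r v e := by ring
      rw [h6] at h5
      have := hM U H h2 h3 h5
      omega
    obtain ⟨c1, ⟨-, N, hN⟩, hc1⟩ : ∃ c1 ∈ upperSet r v e, c1 < ε :=
      exists_lt_of_csInf_lt (upperSet_nonempty hr hv) (by rw [← dens, hz]; exact hε)
    refine ⟨N, fun U hU H hH hf => (hN U hU H hH hf).trans ?_⟩
    gcongr

end Pool.Agent.Q108.BE
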